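import Mathlib

/-!
# Exchange lemmas in a matroid (helper64)
-/

set_option autoImplicit false

namespace Pool.Agent.H94Two

open Set

variable {E : Type*} [Finite E] {N : Matroid E}

theorem base_of_card {A B : Set E} (hA : N.IsBase A) (hc : B.ncard = A.ncard)
    (hs : N.Spanning B) : N.IsBase B := by
  obtain ⟨B', hB', hsub⟩ := hs.exists_isBase_subset
  have h1 := hB'.ncard_eq_ncard_of_isBase hA
  have h2 : B' = B := Set.eq_of_subset_of_ncard_le hsub (by omega) (Set.toFinite B)
  rwa [← h2]

theorem exch_of_notMem (g : N.E = univ) {A X : Set E} {e : E} (hA : N.IsBase A) (hX : X ⊆ A)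
    (he : e ∉ A) (h : e ∉ N.closure X) : ∃ a ∈ A \ X, N.IsBase (insert e (A \ {a})) := by
  have hXi : N.Indep X := hA.indep.subset hX
  have heX : e ∉ X := fun h' => he (hX h')
  have hi : N.Indep (insert e X) :=
    (hXi.notMem_closure_iff_of_notMem heX (by rw [g]; exact mem_univ e)).1 h
  obtain ⟨B, hB, h1, h2⟩ := hi.exists_isBase_subset_union_isBase hA
  have hBA : B ⊆ insert e A := by
    intro x hx
    rcases h2 hx with h3 | h3
    · rcases h3 with h4 | h4
      · exact Or.inl h4
      · exact Or.inr (hX h4)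
    · exact Or.inr h3
  have heB : e ∈ B := h1 (mem_insert e X)
  have hc := hB.ncard_eq_ncard_of_isBase hA
  have hnot : ¬ A ⊆ B := by
    intro hAB
    have : A = B := Set.eq_of_subset_of_ncard_le hAB (by omega) (Set.toFinite B)
    exact he (this ▸ heB)
  obtain ⟨a, haA, haB⟩ := Set.not_subset.1 hnot
  refine ⟨a, ⟨haA, fun h3 => haB (h1 (mem_insert_of_mem e h3))⟩, ?_⟩
  have hsub : B ⊆ insert e (A \ {a}) := by
    intro x hx
    rcases hBA hx with h3 | h3
    · exact Or.inl h3
    · refine Or.inr ⟨h3, fun h4 => haB ?_⟩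
      rw [← mem_singleton_iff.1 h4]
      exact hx
  have hc2 : (insert e (A \ {a})).ncard ≤ B.ncard := by
    have h5 := Set.ncard_insert_le e (A \ {a})
    have h6 := Set.ncard_sdiff_singleton_add_one haA (Set.toFinite A)
    omega
  rw [← Set.eq_of_subset_of_ncard_le hsub hc2 (Set.toFinite _)]
  exact hB

theorem mem_closure_of_exch (g : N.E = univ) {A X : Set E} {a e : E} (hA : N.IsBase A)
    (hX : X ⊆ A) (haX : a ∉ X) (ha : a ∈ A) (he : e ∉ A)
    (h1 : N.IsBase (insert e (A \ {a})))
    (h2 : ∀ a' ∈ A \ X, N.IsBase (insert e (A \ {a'})) → a' = a) :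
    a ∈ N.closure (insert e X) := by
  apply Matroid.mem_closure_insert
  · intro h3
    have hXa : X ⊆ A \ {a} := by
      intro x hx
      refine ⟨hX hx, fun h5 => haX ?_⟩
      rw [mem_singleton_iff] at h5
      rwa [← h5]
    have h4 : e ∈ N.closure (A \ {a}) := N.closure_subset_closure hXa h3
    have hi : N.Indep (A \ {a}) := hA.indep.subset sdiff_subset
    exact (hi.notMem_closure_iff_of_notMem (fun h5 => he h5.1) (by rw [g]; exact mem_univ e)).2
      h1.indep h4
  · by_contra h3
    obtain ⟨a', ha', h4⟩ := exch_of_notMem g hA (insert_subset ha hX) he h3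
    have h5 := h2 a' ⟨ha'.1, fun h6 => ha'.2 (mem_insert_of_mem a h6)⟩ h4
    exact ha'.2 (h5 ▸ mem_insert _ X)

theorem span_of (g : N.E = univ) {A B : Set E} (hA : N.IsBase A) (h : A ⊆ N.closure B) :
    N.Spanning B := by
  rw [Matroid.spanning_iff_ground_subset_closure (by rw [g]; exact subset_univ B),
    ← hA.closure_eq]
  exact N.closure_subset_closure_of_subset_closure h

theorem mem_cl (g : N.E = univ) {B : Set E} {x : E} (h : x ∈ B) : x ∈ N.closure B :=
  N.subset_closure B (by rw [g]; exact subset_univ B) h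

end Pool.Agent.H94Two
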