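import Pool.Agent.H94Two.Pair
import Pool.Agent.H94Two.Mat

/-!
# Two far components of the common bases of two matroids (helper64, proof by helpers 12 and 94)

The common bases which contain `C` are divided into two classes, any two members of different
classes differ in at least three elements. Then there is a set `Z` such that no common base
containing `C` lies in `C ∪ Z` or is disjoint from `Z`.
-/

set_option autoImplicit false

open Finset

namespace Pool.Agent.H94Two

variable {E : Type*} [Fintype E] [DecidableEq E]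

theorem cut (N1 N2 : Matroid E) (g1 : N1.E = Set.univ) (g2 : N2.E = Set.univ) (k : ℕ)
    (hk : ∀ A : Finset E, N1.IsBase A → N2.IsBase A → A.card = k) (C : Finset E)
    (Y : Set (Finset E))
    (hY : ∀ A A' : Finset E, A ∈ Y → N1.IsBase A → N2.IsBase A → N1.IsBase A' → N2.IsBase A' →
      C ⊆ A → C ⊆ A' → k ≤ (A ∩ A').card + 2 → A' ∈ Y)
    (A0 A1 : Finset E) (h0 : N1.IsBase A0) (h0' : N2.IsBase A0) (hC0 : C ⊆ A0) (hA0 : A0 ∈ Y)
    (h1 : N1.IsBase A1) (h1' : N2.IsBase A1) (hC1 : C ⊆ A1) (hA1 : A1 ∉ Y) :
    ∃ Z : Finset E, Disjoint Z C ∧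
      (∀ A : Finset E, N1.IsBase A → N2.IsBase A → C ⊆ A → ¬ A ⊆ C ∪ Z) ∧
      (∀ A : Finset E, N1.IsBase A → N2.IsBase A → C ⊆ A → ¬ Disjoint A Z) := by
  classical
  -- a closest pair
  obtain ⟨⟨A, A'⟩, hAA, hmax⟩ := Finset.exists_max_image
    ((univ : Finset (Finset E × Finset E)).filter fun p =>
      (N1.IsBase p.1 ∧ N2.IsBase p.1 ∧ C ⊆ p.1 ∧ p.1 ∈ Y) ∧
      (N1.IsBase p.2 ∧ N2.IsBase p.2 ∧ C ⊆ p.2 ∧ p.2 ∉ Y))
    (fun p => (p.1 ∩ p.2).card) ⟨(A0, A1), by simp [h0, h0', hC0, hA0, h1, h1', hC1, hA1]⟩
  simp only [mem_filter, mem_univ, true_and] at hAA hmax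
  obtain ⟨⟨b1, b2, hCA, hAY⟩, c1, c2, hCA', hAY'⟩ := hAA
  have hkA : A.card = k := hk A b1 b2
  have hkA' : A'.card = k := hk A' c1 c2
  -- no common base strictly nearer to both
  have near : ∀ B : Finset E, N1.IsBase B → N2.IsBase B → C ⊆ B →
      (A ∩ A').card < (B ∩ A').card → (A ∩ A').card < (A ∩ B).card → False := by
    intro B hB1 hB2 hCB l1 l2
    by_cases hBY : B ∈ Y
    · have := hmax (B, A') ⟨⟨hB1, hB2, hCB, hBY⟩, c1, c2, hCA', hAY'⟩
      simp only at this
      omega
    · have := hmax (A, B) ⟨⟨b1, b2, hCA, hAY⟩, hB1, hB2, hCB, hBY⟩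
      simp only at this
      omega
  have hfar : (A ∩ A').card + 3 ≤ k := by
    by_contra hn
    exact hAY' (hY A A' hAY b1 b2 c1 c2 hCA hCA' (by omega))
  set P := A ∩ A' with hP
  set D := A \ A' with hD
  set D' := A' \ A with hD'
  have hCP : C ⊆ P := subset_inter hCA hCA'
  have hPD : P.card + D.card = k := by
    rw [hP, hD, ← hkA, card_inter_add_card_sdiff]
  have hPD' : P.card + D'.card = k := by
    rw [hP, hD', ← hkA', inter_comm, card_inter_add_card_sdiff]
  -- the digraph
  obtain ⟨I, J, hID, hJD, δ, σ, hI0, hIJ, hδJ, hσI, hR1, hR2, injδ, injσ, surδ, surσ, irr⟩ :=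
    min_pair (fun a d => N1.IsBase (insert d ((A : Set E) \ {a})))
      (fun d a => N2.IsBase (insert d ((A : Set E) \ {a}))) D D' (by
        refine ⟨?_, ?_, ?_⟩
        · rw [← card_pos]; omega
        · intro a ha
          rw [hD, mem_sdiff] at ha
          obtain ⟨d, hd, h⟩ := b1.exchange c1 (e := a) (by simpa using ha)
          exact ⟨d, by simpa [hD'] using hd, h⟩
        · intro d hd
          rw [hD', mem_sdiff] at hd
          have hdcl : d ∉ N2.closure (A' ∩ A : Set E) := by
            intro h
            have h3 : N2.Indep (insert d (A' ∩ A : Set E)) := c2.indep.subset (by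
              intro x hx
              rcases hx with rfl | hx
              · exact hd.1
              · exact hx.1)
            exact (((h3.subset (Set.subset_insert _ _)).notMem_closure_iff_of_notMem
              (fun h4 => hd.2 h4.2) (by rw [g2]; exact Set.mem_univ d)).2 h3) h
          obtain ⟨a, ha, h⟩ := exch_of_notMem g2 b2 (X := (A' ∩ A : Set E))
            Set.inter_subset_right (by simpa using hd.2) hdcl
          refine ⟨a, ?_, h⟩
          rw [hD, mem_sdiff]
          exact ⟨ha.1, fun h5 => ha.2 ⟨h5, ha.1⟩⟩)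
  have hIA : ∀ a ∈ I, a ∈ A ∧ a ∉ A' := fun a ha => mem_sdiff.1 (hID ha)
  have hJA : ∀ d ∈ J, d ∈ A' ∧ d ∉ A := fun d hd => mem_sdiff.1 (hJD hd)
  -- closure facts
  have K1 : ∀ a ∈ I, a ∈ N1.closure (insert (δ a) ((A : Set E) \ I)) := by
    intro a ha
    refine mem_closure_of_exch g1 b1 Set.sdiff_subset (fun h => h.2 ha) (hIA a ha).1
      (hJA _ (hδJ a ha)).2 ((hR1 a ha (δ a) (hδJ a ha)).2 rfl) ?_
    intro a' ha' h
    have haI : a' ∈ I := by
      by_contra hn
      exact ha'.2 ⟨ha'.1, hn⟩
    exact (injδ a ha a' haI ((hR1 a' haI (δ a) (hδJ a ha)).1 h)).symm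
  have K2 : ∀ d ∈ J, σ d ∈ N2.closure (insert d ((A : Set E) \ I)) := by
    intro d hd
    refine mem_closure_of_exch g2 b2 Set.sdiff_subset (fun h => h.2 (hσI d hd))
      (hIA _ (hσI d hd)).1 (hJA _ hd).2 ((hR2 d hd (σ d) (hσI d hd)).2 rfl) ?_
    intro a' ha' h
    have haI : a' ∈ I := by
      by_contra hn
      exact ha'.2 ⟨ha'.1, hn⟩
    exact (hR2 d hd a' haI).1 h
  -- the minimal pair is everything
  have hdisj : Disjoint (A \ I) J :=
    disjoint_left.2 fun x hx hx' => (hJA x hx').2 (mem_sdiff.1 hx).1
  have hIsub : I ⊆ A := fun a ha => (hIA a ha).1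
  have hB0c : ((A \ I) ∪ J).card = A.card := by
    rw [card_union_of_disjoint hdisj, card_sdiff_of_subset hIsub, ← hIJ]
    have := card_le_card hIsub
    omega
  have hB01 : N1.IsBase (((A \ I) ∪ J : Finset E) : Set E) := by
    refine base_of_card b1 (by rw [Set.ncard_coe_finset, Set.ncard_coe_finset, hB0c])
      (span_of g1 b1 ?_)
    intro x hx
    by_cases hxI : x ∈ I
    · refine N1.closure_subset_closure ?_ (K1 x hxI)
      intro y hy
      rcases hy with rfl | hy
      · simp [hδJ x hxI]
      · simp only [coe_union, coe_sdiff]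
        exact Or.inl hy
    · refine mem_cl g1 ?_
      simp only [coe_union, coe_sdiff]
      exact Or.inl ⟨hx, hxI⟩
  have hB02 : N2.IsBase (((A \ I) ∪ J : Finset E) : Set E) := by
    refine base_of_card b2 (by rw [Set.ncard_coe_finset, Set.ncard_coe_finset, hB0c])
      (span_of g2 b2 ?_)
    intro x hx
    by_cases hxI : x ∈ I
    · obtain ⟨d, hd, rfl⟩ := surσ x hxI
      refine N2.closure_subset_closure ?_ (K2 d hd)
      intro y hy
      rcases hy with rfl | hy
      · simp [hd]
      · simp only [coe_union, coe_sdiff]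
        exact Or.inl hy
    · refine mem_cl g2 ?_
      simp only [coe_union, coe_sdiff]
      exact Or.inl ⟨hx, hxI⟩
  have hPI : P ⊆ A \ I := by
    intro x hx
    rw [hP, mem_inter] at hx
    rw [mem_sdiff]
    exact ⟨hx.1, fun h => (hIA x h).2 hx.2⟩
  have hJ0 : 0 < J.card := by rw [← hIJ]; exact card_pos.2 hI0
  have hIeq : I = D := by
    by_contra hne
    have hlt : I.card < D.card := card_lt_card (hID.ssubset_of_ne hne)
    refine near _ hB01 hB02 (hCP.trans (hPI.trans subset_union_left)) ?_ ?_
    · have hsub : P ∪ J ⊆ ((A \ I) ∪ J) ∩ A' := by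
        intro x hx
        rw [mem_inter, mem_union]
        rcases mem_union.1 hx with h | h
        · exact ⟨Or.inl (hPI h), (mem_inter.1 h).2⟩
        · exact ⟨Or.inr h, (hJA x h).1⟩
      have hd : Disjoint P J :=
        disjoint_left.2 fun x hx hx' => (hJA x hx').2 (mem_inter.1 hx).1
      have := card_le_card hsub
      rw [card_union_of_disjoint hd] at this
      omega
    · have hsub : A \ I ⊆ A ∩ ((A \ I) ∪ J) := by
        intro x hx
        rw [mem_inter, mem_union]
        exact ⟨(mem_sdiff.1 hx).1, Or.inl hx⟩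
      have := card_le_card hsub
      rw [card_sdiff_of_subset hIsub] at this
      omega
  have hPeq : (A : Set E) \ I = P := by
    ext x
    rw [hIeq, hD, hP]
    simp only [coe_sdiff, coe_inter, Set.mem_sdiff, Set.mem_inter_iff, mem_coe]
    tauto
  rw [hPeq] at K1 K2
  -- the permutation
  set τ : E → E := fun a => σ (δ a) with hτ
  have hτI : ∀ a ∈ I, τ a ∈ I := fun a ha => hσI _ (hδJ a ha)
  have injτ : ∀ a ∈ I, ∀ b ∈ I, τ a = τ b → a = b := fun a ha b hb h =>
    injδ a ha b hb (injσ _ (hδJ a ha) _ (hδJ b hb) h)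
  obtain ⟨a1, ha1⟩ := hI0
  have ha1A := hIA a1 ha1
  have ha2ne : τ a1 ≠ a1 := by
    intro h
    have := irr {a1} (singleton_subset_iff.2 ha1) (singleton_nonempty a1) (by
      intro a ha
      rw [mem_singleton] at ha ⊢
      rw [ha]; exact h)
    rw [← hIeq, ← this, card_singleton] at hPD
    omega
  refine ⟨univ.filter fun e => e ∉ C ∧ ¬ N1.IsBase (insert e ((A : Set E) \ {a1})), ?_, ?_, ?_⟩
  · rw [disjoint_left]
    intro x hx
    exact (mem_filter.1 hx).2.1
  · intro B hB1 _ hCB hsub
    have hcl : (B : Set E) ⊆ N1.closure ((A : Set E) \ {a1}) := by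
      intro x hx
      rcases mem_union.1 (hsub hx) with h | h
      · refine mem_cl g1 ⟨(mem_inter.1 (hCP h)).1, ?_⟩
        rintro rfl
        exact ha1A.2 (mem_inter.1 (hCP h)).2
      · by_contra hn
        exact (mem_filter.1 h).2.2 (b1.exchange_base_of_notMem_closure ha1A.1 hn
          (by rw [g1]; exact Set.mem_univ x))
    have hsp := span_of g1 hB1 hcl
    have h3 : a1 ∈ N1.closure ((A : Set E) \ {a1}) := by
      rw [hsp.closure_eq, g1]; exact Set.mem_univ a1
    exact b1.indep.notMem_closure_sdiff_of_mem ha1A.1 h3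
  · intro B _ hB2 hCB hdis
    set T : Finset E := insert a1 (insert (τ a1) P) with hT
    have hTA : T ⊆ A := by
      intro x hx
      simp only [hT, mem_insert] at hx
      rcases hx with rfl | rfl | hx
      · exact ha1A.1
      · exact (hIA _ (hτI a1 ha1)).1
      · exact (mem_inter.1 hx).1
    have hcl : (B : Set E) ⊆ N2.closure (T : Set E) := by
      intro x hx
      by_cases hxC : x ∈ C
      · exact mem_cl g2 (mem_coe.2 (mem_insert_of_mem (mem_insert_of_mem (hCP hxC))))
      have hx1 : N1.IsBase (insert x ((A : Set E) \ {a1})) := by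
        by_contra hn
        exact disjoint_left.1 hdis hx (mem_filter.2 ⟨mem_univ x, hxC, hn⟩)
      by_cases hxA : x ∈ A
      · have hxa : x = a1 := by
          by_contra hne
          have h4 : insert x ((A : Set E) \ {a1}) = (A : Set E) \ {a1} :=
            Set.insert_eq_of_mem ⟨hxA, hne⟩
          rw [h4] at hx1
          have h5 := hx1.ncard_eq_ncard_of_isBase b1
          have h6 := Set.ncard_sdiff_singleton_add_one (mem_coe.2 ha1A.1) (Set.toFinite _)
          omega
        rw [hxa]
        exact mem_cl g2 (mem_coe.2 (mem_insert_self _ _))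
      by_contra hn
      obtain ⟨aj, haj, hx2⟩ := exch_of_notMem g2 b2 (X := (T : Set E)) (coe_subset.2 hTA)
        (fun h => hxA h) hn
      have hajA : aj ∈ A := haj.1
      have hajT : aj ∉ T := haj.2
      simp only [hT, mem_insert, not_or] at hajT
      obtain ⟨hj1, hj2, hjP⟩ := hajT
      have hajI : aj ∈ I := by
        rw [hIeq, hD, mem_sdiff]
        exact ⟨hajA, fun h => hjP (mem_inter.2 ⟨hajA, h⟩)⟩
      have hxJ : x ∉ J := by
        intro hxJ
        have e1 := (hR1 a1 ha1 x hxJ).1 hx1
        have e2 := (hR2 x hxJ aj hajI).1 hx2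
        rw [e1] at e2
        exact hj2 e2
      -- the part of the cycle from `aj` to `a1`
      have hit : ∀ m, τ^[m] aj ∈ I := by
        intro m
        induction m with
        | zero => exact hajI
        | succ m ih =>
          rw [Function.iterate_succ_apply']
          exact hτI _ ih
      have hex : ∃ m, τ^[m] aj = a1 := by
        have h8 := irr (I.filter fun y => ∃ m, τ^[m] aj = y) (filter_subset _ _)
          ⟨aj, mem_filter.2 ⟨hajI, 0, rfl⟩⟩ (by
            intro a ha
            obtain ⟨h9, m, rfl⟩ := mem_filter.1 ha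
            exact mem_filter.2 ⟨hτI _ h9, m + 1, Function.iterate_succ_apply' τ m aj⟩)
        have h9 := ha1
        rw [← h8] at h9
        exact (mem_filter.1 h9).2
      obtain ⟨s, hs1, hs2⟩ : ∃ s, τ^[s] aj = a1 ∧ ∀ m < s, τ^[m] aj ≠ a1 :=
        ⟨Nat.find hex, Nat.find_spec hex, fun m hm => Nat.find_min hex hm⟩
      have hs0 : 0 < s := by
        rcases Nat.eq_zero_or_pos s with h | h
        · rw [h] at hs1
          exact absurd hs1 hj1
        · exact h
      set Q : Finset E := (range s).image fun m => τ^[m] aj with hQ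
      have hQI : Q ⊆ I := by
        intro y hy
        obtain ⟨m, -, rfl⟩ := mem_image.1 hy
        exact hit m
      have ha1Q : a1 ∉ Q := by
        intro h
        obtain ⟨m, hm, h⟩ := mem_image.1 h
        exact hs2 m (mem_range.1 hm) h
      have ha2Q : τ a1 ∉ Q := by
        intro h
        obtain ⟨m, hm, h⟩ := mem_image.1 h
        rw [mem_range] at hm
        cases m with
        | zero => exact hj2 h
        | succ m =>
          rw [Function.iterate_succ_apply'] at h
          exact hs2 m (by omega) (injτ _ (hit m) a1 ha1 h)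
      have hajQ : aj ∈ Q := mem_image.2 ⟨0, mem_range.2 hs0, rfl⟩
      have hIdisj : ∀ y ∈ I, y ∉ P := fun y hy hyP => (hIA y hy).2 (mem_inter.1 hyP).2
      set G : Finset E := insert x (P ∪ ((I \ Q).erase a1 ∪ Q.image δ)) with hG
      have hxP : x ∉ P := fun h => hxA (mem_inter.1 h).1
      have hQJ : Q.image δ ⊆ J := by
        intro y hy
        obtain ⟨q, hq, rfl⟩ := mem_image.1 hy
        exact hδJ q (hQI hq)
      have hGc : G.card = k := by
        have hn1 : x ∉ P ∪ ((I \ Q).erase a1 ∪ Q.image δ) := by
          intro h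
          rcases mem_union.1 h with h | h
          · exact hxP h
          · rcases mem_union.1 h with h | h
            · exact hxA (hIA x (mem_sdiff.1 (mem_erase.1 h).2).1).1
            · exact hxJ (hQJ h)
        have hd1 : Disjoint P ((I \ Q).erase a1 ∪ Q.image δ) := by
          rw [disjoint_left]
          intro y hy h
          rcases mem_union.1 h with h | h
          · exact hIdisj y (mem_sdiff.1 (mem_erase.1 h).2).1 hy
          · exact (hJA y (hQJ h)).2 (mem_inter.1 hy).1
        have hd2 : Disjoint ((I \ Q).erase a1) (Q.image δ) := by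
          rw [disjoint_left]
          intro y hy h
          exact (hJA y (hQJ h)).2 (hIA y (mem_sdiff.1 (mem_erase.1 hy).2).1).1
        have hci : (Q.image δ).card = Q.card := by
          apply card_image_of_injOn
          intro a ha b hb h
          exact injδ a (hQI ha) b (hQI hb) h
        rw [hG, card_insert_of_notMem hn1, card_union_of_disjoint hd1, card_union_of_disjoint hd2,
          hci, card_erase_of_mem (mem_sdiff.2 ⟨ha1, ha1Q⟩), card_sdiff_of_subset hQI]
        have h8 : Q.card < I.card := card_lt_card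
          (hQI.ssubset_of_ne fun h => ha1Q (h ▸ ha1))
        rw [← hIeq] at hPD
        omega
      have hPG : P ⊆ G := fun y hy => mem_insert_of_mem (mem_union_left _ hy)
      have hrest : ∀ y ∈ I, y ∉ Q → y ≠ a1 → y ∈ G := fun y hy hyQ hy1 =>
        mem_insert_of_mem (mem_union_right _ (mem_union_left _
          (mem_erase.2 ⟨hy1, mem_sdiff.2 ⟨hy, hyQ⟩⟩)))
      have hδG : ∀ q ∈ Q, δ q ∈ G := fun q hq =>
        mem_insert_of_mem (mem_union_right _ (mem_union_right _ (mem_image_of_mem δ hq)))
      have hsubG : ∀ d ∈ G, (insert d (P : Set E)) ⊆ (G : Set E) := by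
        intro d hd y hy
        rcases hy with rfl | hy
        · exact mem_coe.2 hd
        · exact mem_coe.2 (hPG hy)
      have hcardG : (G : Set E).ncard = (A : Set E).ncard := by
        rw [Set.ncard_coe_finset, Set.ncard_coe_finset, hGc, hkA]
      have hG1 : N1.IsBase (G : Set E) := by
        refine base_of_card b1 hcardG (span_of g1 hx1 ?_)
        intro y hy
        rcases hy with rfl | ⟨hyA, hy1⟩
        · exact mem_cl g1 (mem_coe.2 (mem_insert_self _ _))
        · by_cases hyP : y ∈ P
          · exact mem_cl g1 (mem_coe.2 (hPG hyP))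
          · have hyI : y ∈ I := by
              rw [hIeq, hD, mem_sdiff]
              exact ⟨hyA, fun h => hyP (mem_inter.2 ⟨hyA, h⟩)⟩
            by_cases hyQ : y ∈ Q
            · exact N1.closure_subset_closure (hsubG _ (hδG y hyQ)) (K1 y hyI)
            · exact mem_cl g1 (mem_coe.2 (hrest y hyI hyQ hy1))
      have hG2 : N2.IsBase (G : Set E) := by
        refine base_of_card b2 hcardG (span_of g2 hx2 ?_)
        intro y hy
        rcases hy with rfl | ⟨hyA, hyj⟩
        · exact mem_cl g2 (mem_coe.2 (mem_insert_self _ _))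
        · by_cases hyP : y ∈ P
          · exact mem_cl g2 (mem_coe.2 (hPG hyP))
          · have hyI : y ∈ I := by
              rw [hIeq, hD, mem_sdiff]
              exact ⟨hyA, fun h => hyP (mem_inter.2 ⟨hyA, h⟩)⟩
            have hpre : ∀ m, 0 < m → m ≤ s → τ^[m] aj ∈ N2.closure (G : Set E) := by
              intro m hm hms
              obtain ⟨m, rfl⟩ : ∃ t, m = t + 1 := ⟨m - 1, by omega⟩
              rw [Function.iterate_succ_apply']
              have hq : τ^[m] aj ∈ Q := mem_image.2 ⟨m, mem_range.2 (by omega), rfl⟩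
              exact N2.closure_subset_closure (hsubG _ (hδG _ hq)) (K2 _ (hδJ _ (hit m)))
            by_cases hy1 : y = a1
            · rw [hy1, ← hs1]
              exact hpre s hs0 le_rfl
            · by_cases hyQ : y ∈ Q
              · obtain ⟨m, hm, rfl⟩ := mem_image.1 hyQ
                rw [mem_range] at hm
                refine hpre m ?_ hm.le
                rcases Nat.eq_zero_or_pos m with h | h
                · subst h
                  exact absurd rfl hyj
                · exact h
              · exact mem_cl g2 (mem_coe.2 (hrest y hyI hyQ hy1))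
      refine near G hG1 hG2 (hCP.trans hPG) ?_ ?_
      · have hsub : insert (δ aj) P ⊆ G ∩ A' := by
          intro y hy
          rcases mem_insert.1 hy with rfl | hy
          · exact mem_inter.2 ⟨hδG _ hajQ, (hJA _ (hδJ _ hajI)).1⟩
          · exact mem_inter.2 ⟨hPG hy, (mem_inter.1 hy).2⟩
        have h8 := card_le_card hsub
        have h9 : δ aj ∉ P := fun h => (hJA _ (hδJ _ hajI)).2 (mem_inter.1 h).1
        rw [card_insert_of_notMem h9] at h8
        exact lt_of_lt_of_le (Nat.lt_succ_self _) h8
      · have hsub : insert (τ a1) P ⊆ A ∩ G := by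
          intro y hy
          rcases mem_insert.1 hy with rfl | hy
          · exact mem_inter.2 ⟨(hIA _ (hτI a1 ha1)).1, hrest _ (hτI a1 ha1) ha2Q ha2ne⟩
          · exact mem_inter.2 ⟨(mem_inter.1 hy).1, hPG hy⟩
        have h8 := card_le_card hsub
        rw [card_insert_of_notMem (hIdisj _ (hτI a1 ha1))] at h8
        omega
    have hsp := span_of g2 hB2 hcl
    obtain ⟨B', hB', hsub⟩ := hsp.exists_isBase_subset
    have h5 := hB'.ncard_eq_ncard_of_isBase b2
    have h6 := Set.ncard_le_ncard hsub (Set.toFinite _)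
    rw [Set.ncard_coe_finset] at h5 h6
    have h7 : T.card ≤ P.card + 2 := by
      rw [hT]
      have e1 := card_insert_le a1 (insert (τ a1) P)
      have e2 := card_insert_le (τ a1) P
      omega
    omega

end Pool.Agent.H94Two
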