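import Mathlib

/-!
# A minimal closed pair of an alternating digraph (helper64)
-/

set_option autoImplicit false

open Finset

namespace Pool.Agent.H94Two

/-- `I` and `J` are closed under outgoing edges in the weak sense. -/
def Cl {E : Type*} (R1 R2 : E → E → Prop) (I J : Finset E) : Prop :=
  I.Nonempty ∧ (∀ a ∈ I, ∃ d ∈ J, R1 a d) ∧ (∀ d ∈ J, ∃ a ∈ I, R2 d a)

theorem min_pair {E : Type*} [DecidableEq E] (R1 R2 : E → E → Prop) (D D' : Finset E)
    (h : Cl R1 R2 D D') :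
    ∃ I J : Finset E, I ⊆ D ∧ J ⊆ D' ∧ ∃ δ σ : E → E, I.Nonempty ∧ I.card = J.card ∧
      (∀ a ∈ I, δ a ∈ J) ∧ (∀ d ∈ J, σ d ∈ I) ∧
      (∀ a ∈ I, ∀ d ∈ J, (R1 a d ↔ d = δ a)) ∧ (∀ d ∈ J, ∀ a ∈ I, (R2 d a ↔ a = σ d)) ∧
      (∀ a ∈ I, ∀ b ∈ I, δ a = δ b → a = b) ∧ (∀ a ∈ J, ∀ b ∈ J, σ a = σ b → a = b) ∧
      (∀ d ∈ J, ∃ a ∈ I, δ a = d) ∧ (∀ a ∈ I, ∃ d ∈ J, σ d = a) ∧
      (∀ I' ⊆ I, I'.Nonempty → (∀ a ∈ I', σ (δ a) ∈ I') → I' = I) := by
  classical
  obtain ⟨⟨I, J⟩, hIJ, hmin⟩ := Finset.exists_min_image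
    ((D.powerset ×ˢ D'.powerset).filter fun p => Cl R1 R2 p.1 p.2)
    (fun p => p.1.card + p.2.card) ⟨(D, D'), by simp [h]⟩
  simp only [mem_filter, mem_product, mem_powerset] at hIJ hmin
  obtain ⟨⟨hID, hJD⟩, hI0, hI1, hI2⟩ := hIJ
  -- minimality for closed pairs inside `(I, J)`
  have hm : ∀ I' J' : Finset E, I' ⊆ I → J' ⊆ J → Cl R1 R2 I' J' → I' = I ∧ J' = J := by
    intro I' J' h1 h2 h3
    have h4 := hmin (I', J') ⟨⟨h1.trans hID, h2.trans hJD⟩, h3⟩
    have h5 := card_le_card h1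
    have h6 := card_le_card h2
    simp only at h4
    exact ⟨eq_of_subset_of_card_le h1 (by omega), eq_of_subset_of_card_le h2 (by omega)⟩
  -- every choice is surjective
  have s1 : ∀ δ : E → E, (∀ a ∈ I, δ a ∈ J ∧ R1 a (δ a)) → I.image δ = J := by
    intro δ hδ
    refine (hm I (I.image δ) Subset.rfl ?_ ⟨hI0, ?_, ?_⟩).2
    · intro d hd
      obtain ⟨a, ha, rfl⟩ := mem_image.1 hd
      exact (hδ a ha).1
    · intro a ha
      exact ⟨δ a, mem_image_of_mem _ ha, (hδ a ha).2⟩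
    · intro d hd
      obtain ⟨a, ha, rfl⟩ := mem_image.1 hd
      exact hI2 _ (hδ a ha).1
  have hJ0 : J.Nonempty := by
    obtain ⟨a, ha⟩ := hI0
    obtain ⟨d, hd, -⟩ := hI1 a ha
    exact ⟨d, hd⟩
  have s2 : ∀ σ : E → E, (∀ d ∈ J, σ d ∈ I ∧ R2 d (σ d)) → J.image σ = I := by
    intro σ hσ
    refine (hm (J.image σ) J ?_ Subset.rfl ⟨hJ0.image σ, ?_, ?_⟩).1
    · intro d hd
      obtain ⟨a, ha, rfl⟩ := mem_image.1 hd
      exact (hσ a ha).1
    · intro a ha
      obtain ⟨d, hd, rfl⟩ := mem_image.1 ha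
      exact hI1 _ (hσ d hd).1
    · intro d hd
      exact ⟨σ d, mem_image_of_mem _ hd, (hσ d hd).2⟩
  choose! δ hδ1 hδ2 using hI1
  choose! σ hσ1 hσ2 using hI2
  have e1 := s1 δ fun a ha => ⟨hδ1 a ha, hδ2 a ha⟩
  have e2 := s2 σ fun d hd => ⟨hσ1 d hd, hσ2 d hd⟩
  have hc : I.card = J.card := by
    have h1 : (I.image δ).card ≤ I.card := card_image_le
    have h2 : (J.image σ).card ≤ J.card := card_image_le
    rw [e1] at h1
    rw [e2] at h2
    omega
  have inj1 : ∀ f : E → E, (∀ a ∈ I, f a ∈ J ∧ R1 a (f a)) →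
      ∀ a ∈ I, ∀ b ∈ I, f a = f b → a = b := by
    intro f hf a ha b hb hab
    have : Set.InjOn f I := card_image_iff.1 (by rw [s1 f hf, hc])
    exact this ha hb hab
  have inj2 : ∀ f : E → E, (∀ d ∈ J, f d ∈ I ∧ R2 d (f d)) →
      ∀ a ∈ J, ∀ b ∈ J, f a = f b → a = b := by
    intro f hf a ha b hb hab
    have : Set.InjOn f J := card_image_iff.1 (by rw [s2 f hf, hc])
    exact this ha hb hab
  refine ⟨I, J, hID, hJD, δ, σ, hI0, hc, hδ1, hσ1, ?_, ?_,
    inj1 δ fun a ha => ⟨hδ1 a ha, hδ2 a ha⟩, inj2 σ fun d hd => ⟨hσ1 d hd, hσ2 d hd⟩, ?_, ?_, ?_⟩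
  · intro a ha d hd
    constructor
    · intro hR
      by_contra hne
      have hf : ∀ x ∈ I, (Function.update δ a d) x ∈ J ∧ R1 x ((Function.update δ a d) x) := by
        intro x hx
        by_cases hxa : x = a
        · subst hxa
          simp [hd, hR]
        · rw [Function.update_of_ne hxa]
          exact ⟨hδ1 x hx, hδ2 x hx⟩
      rw [← e1] at hd
      obtain ⟨b, hb, rfl⟩ := mem_image.1 hd
      have hba : b ≠ a := fun h => hne (by rw [h])
      have := inj1 _ hf a ha b hb (by rw [Function.update_self, Function.update_of_ne hba])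
      exact hba this.symm
    · rintro rfl
      exact hδ2 a ha
  · intro d hd a ha
    constructor
    · intro hR
      by_contra hne
      have hf : ∀ x ∈ J, (Function.update σ d a) x ∈ I ∧ R2 x ((Function.update σ d a) x) := by
        intro x hx
        by_cases hxa : x = d
        · subst hxa
          simp [ha, hR]
        · rw [Function.update_of_ne hxa]
          exact ⟨hσ1 x hx, hσ2 x hx⟩
      rw [← e2] at ha
      obtain ⟨b, hb, rfl⟩ := mem_image.1 ha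
      have hba : b ≠ d := fun h => hne (by rw [h])
      have := inj2 _ hf d hd b hb (by rw [Function.update_self, Function.update_of_ne hba])
      exact hba this.symm
    · rintro rfl
      exact hσ2 d hd
  · intro d hd
    rw [← e1] at hd
    obtain ⟨a, ha, h⟩ := mem_image.1 hd
    exact ⟨a, ha, h⟩
  · intro a ha
    rw [← e2] at ha
    obtain ⟨d, hd, h⟩ := mem_image.1 ha
    exact ⟨d, hd, h⟩
  · intro I' hI' hne hcl
    refine (hm I' (I'.image δ) hI' ?_ ⟨hne, ?_, ?_⟩).1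
    · intro d hd
      obtain ⟨a, ha, rfl⟩ := mem_image.1 hd
      exact hδ1 a (hI' ha)
    · intro a ha
      exact ⟨δ a, mem_image_of_mem _ ha, hδ2 a (hI' ha)⟩
    · intro d hd
      obtain ⟨a, ha, rfl⟩ := mem_image.1 hd
      exact ⟨σ (δ a), hcl a ha, hσ2 _ (hδ1 a (hI' ha))⟩

end Pool.Agent.H94Two
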